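import Pool.Agent.H516.PCF.All

set_option autoImplicit false

/-!
# MP_392fd3_nt: the core lemma, divisibility form

`core1` proves `S_CORE1` from `S_NAB`, `S_GVB`, `S_CROSS`, `S_OL`, `S_SMALL`, `S_OFIB`, `S_FIB`.
-/

namespace Pool.Agent.H187.PCF

open Polynomial Pool.Agent.H516.PCF

/-! ### Crossings of continuous functions -/

theorem first_cross (φ : ℝ → ℝ) (hφ : Continuous φ) {u v s : ℝ} (huv : u ≤ v) (hu : φ u < s)
    (hv : s ≤ φ v) :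
    ∃ ρ, u < ρ ∧ ρ ≤ v ∧ φ ρ = s ∧ ∀ ρ', u ≤ ρ' → ρ' < ρ → φ ρ' < s := by
  set S : Set ℝ := {ρ | u ≤ ρ ∧ s ≤ φ ρ} with hS
  have hcl : IsClosed S := (isClosed_le continuous_const continuous_id).inter
    (isClosed_le continuous_const hφ)
  have hne : S.Nonempty := ⟨v, huv, hv⟩
  have hbd : BddBelow S := ⟨u, fun ρ h => h.1⟩
  have hmem : sInf S ∈ S := hcl.csInf_mem hne hbd
  have hlt : u < sInf S := by
    rcases hmem.1.lt_or_eq with h | h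
    · exact h
    · exfalso
      have := hmem.2
      rw [← h] at this
      linarith
  have hle : sInf S ≤ v := csInf_le hbd ⟨huv, hv⟩
  have hbelow : ∀ ρ', u ≤ ρ' → ρ' < sInf S → φ ρ' < s := by
    intro ρ' h1 h2
    by_contra h3
    push Not at h3
    have := csInf_le hbd (show ρ' ∈ S from ⟨h1, h3⟩)
    linarith
  refine ⟨sInf S, hlt, hle, ?_, hbelow⟩
  obtain ⟨r, hr1, hr2⟩ := intermediate_value_Icc hlt.le hφ.continuousOn
    (show s ∈ Set.Icc (φ u) (φ (sInf S)) from ⟨hu.le, hmem.2⟩)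
  have h3 : sInf S ≤ r := csInf_le hbd ⟨hr1.1, hr2.ge⟩
  have h4 : r = sInf S := le_antisymm hr1.2 h3
  rw [← h4]
  exact hr2

theorem cross_up (φ : ℝ → ℝ) (hφ : Continuous φ) {u v s₂ s₁ : ℝ} (huv : u ≤ v) (hs : s₂ < s₁)
    (hu : φ u ≤ s₂) (hv : s₁ ≤ φ v) :
    ∃ ρ₂ ρ₁, u ≤ ρ₂ ∧ ρ₂ < ρ₁ ∧ ρ₁ ≤ v ∧ φ ρ₂ = s₂ ∧ φ ρ₁ = s₁ ∧
      ∀ ρ, ρ₂ < ρ → ρ < ρ₁ → s₂ < φ ρ ∧ φ ρ < s₁ := by
  obtain ⟨ρ₁, h1, h2, h3, h4⟩ := first_cross φ hφ huv (by linarith) hv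
  have hψ : Continuous fun t : ℝ => - φ (-t) := (hφ.comp continuous_neg).neg
  obtain ⟨t, k1, k2, k3, k4⟩ := first_cross (fun t : ℝ => - φ (-t)) hψ (u := -ρ₁) (v := -u)
    (s := - s₂) (by linarith) (by simp only [neg_neg]; linarith) (by simp only [neg_neg]; linarith)
  refine ⟨-t, ρ₁, by linarith, by linarith, h2, by linarith, h3, fun ρ a1 a2 => ⟨?_, ?_⟩⟩
  · have := k4 (-ρ) (by linarith) (by linarith)
    simp only [neg_neg] at this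
    linarith
  · exact h4 ρ (by linarith) a2

theorem cross_down (φ : ℝ → ℝ) (hφ : Continuous φ) {u v s₂ s₁ : ℝ} (huv : u ≤ v) (hs : s₂ < s₁)
    (hu : s₁ ≤ φ u) (hv : φ v ≤ s₂) :
    ∃ ρ₁ ρ₂, u ≤ ρ₁ ∧ ρ₁ < ρ₂ ∧ ρ₂ ≤ v ∧ φ ρ₁ = s₁ ∧ φ ρ₂ = s₂ ∧
      ∀ ρ, ρ₁ < ρ → ρ < ρ₂ → s₂ < φ ρ ∧ φ ρ < s₁ := by
  obtain ⟨a, b, h1, h2, h3, h4, h5, h6⟩ := cross_up (fun t => - φ t) hφ.neg (s₂ := -s₁)
    (s₁ := -s₂) huv (by linarith) (by linarith) (by linarith)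
  refine ⟨a, b, h1, h2, h3, by linarith, by linarith, fun ρ a1 a2 => ?_⟩
  have := h6 ρ a1 a2
  constructor <;> linarith [this.1, this.2]

theorem first_cross_down (φ : ℝ → ℝ) (hφ : Continuous φ) {u v s : ℝ} (huv : u ≤ v)
    (hu : s < φ u) (hv : φ v ≤ s) :
    ∃ ρ, u < ρ ∧ ρ ≤ v ∧ φ ρ = s ∧ ∀ ρ', u ≤ ρ' → ρ' < ρ → s < φ ρ' := by
  obtain ⟨ρ, h1, h2, h3, h4⟩ := first_cross (fun t => - φ t) hφ.neg (s := -s) huv
    (by linarith) (by linarith)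
  refine ⟨ρ, h1, h2, by linarith, fun ρ' a1 a2 => ?_⟩
  have := h4 ρ' a1 a2
  linarith

/-! ### Divisibility -/

theorem DivZp_neg {p j : ℕ} {x : ℝ} (h : DivZp p j x) : DivZp p j (-x) := by
  obtain ⟨m, h1, z, h2⟩ := h
  refine ⟨m, h1, -z, ?_⟩
  push_cast
  linarith

theorem DivZp_sub {p j : ℕ} (hp : p.Prime) {x y : ℝ} (hx : DivZp p j x) (hy : DivZp p j y) :
    DivZp p j (x - y) := by
  obtain ⟨m, h1, z, h2⟩ := hx
  obtain ⟨m', h1', z', h2'⟩ := hy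
  refine ⟨m * m', fun h => ?_, m' * z - m * z', ?_⟩
  · rcases (Nat.Prime.dvd_mul hp).1 h with h | h
    · exact h1 h
    · exact h1' h
  · push_cast
    have e1 : (m : ℝ) * m' * (x - y) = m' * (m * x) - m * (m' * y) := by ring
    rw [e1, h2, h2']
    ring

/-! ### Limits of Gauss valuations -/

section
variable {F : Type} [Field F]

omit [Field F] in
theorem exists_bound (f : F → ℝ) (s : Multiset F) : ∃ M : ℝ, ∀ z ∈ s, f z ≤ M := by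
  induction s using Multiset.induction_on with
  | empty => exact ⟨0, by simp⟩
  | cons a s ih =>
    obtain ⟨M, hM⟩ := ih
    refine ⟨max M (f a), fun z hz => ?_⟩
    rcases Multiset.mem_cons.1 hz with h | h
    · rw [h]; exact le_max_right _ _
    · exact (hM z h).trans (le_max_left _ _)

theorem mn_mono (w : F → ℝ) (a t : F) {ρ ρ' : ℝ} (h : ρ ≤ ρ') : mn w a t ρ ≤ mn w a t ρ' := by
  unfold mn
  split_ifs
  · exact h
  · exact min_le_min_left _ h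

theorem w_prod (p : ℕ) (w : F → ℝ) (hw : NA p w) (h1 : w 1 = 0) (s : Multiset F)
    (hs : ∀ z ∈ s, z ≠ 0) : w s.prod = (s.map w).sum := by
  induction s using Multiset.induction_on with
  | empty => simpa using h1
  | cons a s ih =>
    have ha : a ≠ 0 := hs a (Multiset.mem_cons_self _ _)
    have hs' : ∀ z ∈ s, z ≠ 0 := fun z hz => hs z (Multiset.mem_cons_of_mem hz)
    have hp : s.prod ≠ 0 := by
      intro h
      exact hs' 0 (Multiset.prod_eq_zero_iff.1 h) rfl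
    rw [Multiset.prod_cons, hw.mul a _ ha hp, ih hs', Multiset.map_cons, Multiset.sum_cons]

/-- Near a point which is not a root the Gauss valuation is the valuation of the value. -/
theorem gv_eventually [IsAlgClosed F] (p : ℕ) (w : F → ℝ) (hw : NA p w) (h1 : w 1 = 0)
    (U : F[X]) (a : F) (ha : U.eval a ≠ 0) : ∃ M : ℝ, ∀ ρ, M ≤ ρ → gv w U a ρ = w (U.eval a) := by
  obtain ⟨M, hM⟩ := exists_bound (fun z => w (a - z)) U.roots
  refine ⟨M, fun ρ hρ => ?_⟩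
  have hU : U ≠ 0 := by
    rintro rfl
    simp at ha
  have hroot : ∀ z ∈ U.roots, a ≠ z := by
    rintro z hz rfl
    exact ha ((mem_roots hU).1 hz)
  have he : U.eval a = U.leadingCoeff * (U.roots.map fun z => a - z).prod :=
    (IsAlgClosed.splits U).eval_eq_prod_roots a
  have hne : ∀ z ∈ U.roots.map (fun z => a - z), z ≠ 0 := by
    intro z hz
    obtain ⟨y, hy, rfl⟩ := Multiset.mem_map.1 hz
    exact sub_ne_zero.2 (hroot y hy)
  have hp : (U.roots.map fun z => a - z).prod ≠ 0 := fun h =>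
    hne 0 (Multiset.prod_eq_zero_iff.1 h) rfl
  rw [he, hw.mul _ _ (leadingCoeff_ne_zero.2 hU) hp, w_prod p w hw h1 _ hne, Multiset.map_map]
  unfold gv
  congr 1
  refine congrArg Multiset.sum (Multiset.map_congr rfl fun z hz => ?_)
  simp only [mn, Function.comp]
  rw [if_neg (hroot z hz), min_eq_left]
  exact (hM z hz).trans hρ

/-- The Gauss valuation tends to infinity at a root. -/
theorem gv_root (w : F → ℝ) (U : F[X]) (a : F) (ha : a ∈ U.roots) :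
    ∃ K : ℝ, ∀ ρ, 0 ≤ ρ → K + ρ ≤ gv w U a ρ := by
  obtain ⟨s, hs⟩ := Multiset.exists_cons_of_mem ha
  refine ⟨w U.leadingCoeff + (s.map fun z => mn w a z 0).sum, fun ρ hρ => ?_⟩
  have h2 : (s.map fun z => mn w a z 0).sum ≤ (s.map fun z => mn w a z ρ).sum :=
    Multiset.sum_map_le_sum_map _ _ fun z _ => mn_mono w a z hρ
  unfold gv
  rw [hs, Multiset.map_cons, Multiset.sum_cons]
  have h3 : mn w a a ρ = ρ := by simp [mn]
  rw [h3]
  linarith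

end

/-- An open condition near a point. -/
theorem not_const_right {φ : ℝ → ℝ} {ρ v s : ℝ} (hv : ρ < v)
    (h : ∀ ρ', ρ < ρ' → ρ' < v → φ ρ' ≠ s) (ε : ℝ) (hε : 0 < ε) :
    ¬ ∀ ρ', |ρ' - ρ| < ε → φ ρ' = s := by
  intro hc
  have h1 : ρ < (ρ + min (ρ + ε) v) / 2 := by
    have : ρ < min (ρ + ε) v := lt_min (by linarith) hv
    linarith
  have h2 : (ρ + min (ρ + ε) v) / 2 < min (ρ + ε) v := by
    have : ρ < min (ρ + ε) v := lt_min (by linarith) hv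
    linarith
  refine h _ h1 (h2.trans_le (min_le_right _ _)) (hc _ ?_)
  rw [abs_lt]
  constructor
  · linarith
  · have := h2.trans_le (min_le_left _ _)
    linarith

theorem not_const_left {φ : ℝ → ℝ} {ρ v s : ℝ} (hv : v < ρ)
    (h : ∀ ρ', v < ρ' → ρ' < ρ → φ ρ' ≠ s) (ε : ℝ) (hε : 0 < ε) :
    ¬ ∀ ρ', |ρ' - ρ| < ε → φ ρ' = s := by
  intro hc
  have h0 : max (ρ - ε) v < ρ := max_lt (by linarith) hv
  have h1 : (ρ + max (ρ - ε) v) / 2 < ρ := by linarith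
  have h2 : max (ρ - ε) v < (ρ + max (ρ - ε) v) / 2 := by linarith
  refine h _ ((le_max_right _ _).trans_lt h2) h1 (hc _ ?_)
  rw [abs_lt]
  constructor
  · have := (le_max_left (ρ - ε) v).trans_lt h2
    linarith
  · linarith

theorem core1 (hNAB : S_NAB) (hGVB : S_GVB) (hCROSS : S_CROSS) (hOL : S_OL) (hSMALL : S_SMALL)
    (hOFIB : S_OFIB) (hFIB : S_FIB) : S_CORE1 := by
  intro F _ _ _ p w d P Q A O hL γ hγ κ hκ γ' hγ' x hx y hy hne hxγ hxγ' hyγ hyγ' hs hks j R V n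
    β c hpath hR hV
  have hp : p.Prime := hL.prime
  have hw : NA p w := hL.na
  obtain ⟨hβ, hc0, hcκ, hβc, hDF⟩ := hpath
  obtain ⟨w1, -, -, -, wdiv, wsym, -, -, wtri, -, -, -⟩ := hNAB F p w hp hw
  obtain ⟨-, -, gcont, gcen, -, -⟩ := hGVB F p w hp hw
  obtain ⟨obwd, ogp, oqn, owr, -, -, -, olin⟩ := hOFIB F p w d P Q A O hL n
  have hfib := hFIB F d P Q hL.nrm n
  set s₁ : ℝ := w (x - γ) - w (x - γ') with hs₁
  set s₂ : ℝ := w (y - γ) - w (y - γ') with hs₂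
  set ρ₀ : ℝ := w (β - c) with hρ₀
  let φ : F → ℝ → ℝ := fun a ρ => gv w (gp d P Q n γ) a ρ - gv w (gp d P Q n γ') a ρ
  have φcont : ∀ a, Continuous (φ a) := fun a => (gcont _ a).sub (gcont _ a)
  have hβO : β ∈ O := obwd γ hγ β hβ
  have hκγ : κ ≠ γ := fun h => hL.disj γ hγ (h ▸ hκ)
  have hκγ' : κ ≠ γ' := fun h => hL.disj γ' hγ' (h ▸ hκ)
  -- evaluation of the fibre polynomials
  have hev : ∀ (a t : F), (qn d P Q n).eval a ≠ 0 →
      (gp d P Q n t).eval a = (qn d P Q n).eval a * (fn d P Q n a - t) := by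
    intro a t ha
    simp only [gp, fn, eval_sub, eval_mul, eval_C]
    field_simp
  -- (b) breaks at crossings
  have hb : ∀ (a : F) (ρ : ℝ) (z : F), z ∈ O → z ≠ γ → z ≠ γ' →
      φ a ρ = w (z - γ) - w (z - γ') →
      (∀ ε > 0, ¬ ∀ ρ', |ρ' - ρ| < ε → φ a ρ' = w (z - γ) - w (z - γ')) →
      ∃ r ∈ O, r ≠ a ∧ w (a - r) = ρ := by
    intro a ρ z hz hzγ hzγ' h1 h2
    by_contra hcon
    push Not at hcon
    have nb : ∀ t ∈ O, ¬ brk w (gp d P Q n t) a ρ := by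
      rintro t ht ⟨r, hr1, hr2, hr3⟩
      exact hcon r (obwd t ht r hr1) hr2 hr3
    have hgg : γ - γ' ≠ 0 := sub_ne_zero.2 (Ne.symm hne)
    have hc1 : (z - γ') / (γ - γ') ≠ 0 := div_ne_zero (sub_ne_zero.2 hzγ') hgg
    have hc2 : (γ - z) / (γ - γ') ≠ 0 := div_ne_zero (sub_ne_zero.2 (Ne.symm hzγ)) hgg
    have hw12 : w ((γ - z) / (γ - γ')) - w ((z - γ') / (γ - γ'))
        = w (z - γ) - w (z - γ') := by
      rw [wdiv _ _ (sub_ne_zero.2 (Ne.symm hzγ)) hgg, wdiv _ _ (sub_ne_zero.2 hzγ') hgg,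
        wsym γ z (Ne.symm hzγ)]
      ring
    have hlin : gp d P Q n z = C ((z - γ') / (γ - γ')) * gp d P Q n γ
        + C ((γ - z) / (γ - γ')) * gp d P Q n γ' := by
      have hC : (C (γ - γ') : F[X]) ≠ 0 := C_ne_zero.2 hgg
      apply mul_left_cancel₀ hC
      rw [olin γ γ' z, mul_add, ← mul_assoc, ← mul_assoc, ← C_mul, ← C_mul,
        mul_div_cancel₀ _ hgg, mul_div_cancel₀ _ hgg]
    obtain ⟨ε, hε, h3⟩ := hCROSS F p w hp hw (gp d P Q n γ) (gp d P Q n γ') (gp d P Q n z)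
      ((z - γ') / (γ - γ')) ((γ - z) / (γ - γ')) (ogp γ) (ogp γ') (ogp z) hc1 hc2 hlin a ρ
      (by rw [hw12]; exact h1) (nb γ hγ) (nb γ' hγ') (nb z hz)
    rw [hw12] at h3
    exact h2 ε hε h3
  -- breaks at crossings, centre in `O`
  have hbO : ∀ (a : F), a ∈ O → ∀ (ρ : ℝ) (z : F), z ∈ O → z ≠ γ → z ≠ γ' →
      φ a ρ = w (z - γ) - w (z - γ') →
      (∀ ε > 0, ¬ ∀ ρ', |ρ' - ρ| < ε → φ a ρ' = w (z - γ) - w (z - γ')) → IsZp p ρ := by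
    intro a ha ρ z hz hzγ hzγ' h1 h2
    obtain ⟨r, hr, hra, hrw⟩ := hb a ρ z hz hzγ hzγ' h1 h2
    rw [← hrw]
    exact hL.zp a ha r hr (Ne.symm hra)
  -- (d) + one line
  have hline : ∀ (a : F), a ∈ O → ∀ ρ' ρ'' : ℝ, ρ₀ ≤ ρ' → ρ' ≤ ρ'' → IsZp p ρ' → IsZp p ρ'' →
      (∀ ρ, ρ' < ρ → ρ < ρ'' → V ≤ DF w d P Q n a ρ) →
      (∀ ρ, ρ' < ρ → ρ < ρ'' → s₂ ≤ φ a ρ ∧ φ a ρ ≤ s₁) →
      DivZp p j (φ a ρ'' - φ a ρ') := by
    intro a ha ρ' ρ'' h0 h1 h2 h3 h4 h5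
    refine hOL F p w hp hw (gp d P Q n γ) (gp d P Q n γ') (ogp γ) (ogp γ') a j ρ' ρ'' h1 h2 h3
      ?_ ?_
    · intro z hz hza
      rcases Multiset.mem_add.1 hz with hz | hz
      · exact hL.zp a ha z (obwd γ hγ z hz) (Ne.symm hza)
      · exact hL.zp a ha z (obwd γ' hγ' z hz) (Ne.symm hza)
    · intro ρ k1 k2 k3 k4
      refine hSMALL F p w d P Q A O hL γ γ' (Ne.symm hne) n j V R a ρ (h4 ρ k1 k2) (by linarith)
        k3 k4 ?_
      have h6 := h5 ρ k1 k2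
      have h7 : vf w d P Q n γ a ρ - vf w d P Q n γ' a ρ = φ a ρ := by
        simp only [vf, φ]
        ring
      rw [h7]
      have h8 : |φ a ρ| ≤ |s₁| + |s₂| := by
        rw [abs_le]
        constructor
        · have := neg_abs_le s₂
          have := abs_nonneg s₁
          linarith [h6.1]
        · have := le_abs_self s₁
          have := abs_nonneg s₂
          linarith [h6.2]
      linarith
  -- (c) limits
  have hβinf : ∀ N B : ℝ, ∃ M, N ≤ M ∧ B ≤ φ β M := by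
    intro N B
    have hq := ((hfib γ).2.1 β).1 hβ
    have h2 : (gp d P Q n γ').eval β ≠ 0 := by
      rw [hev β γ' hq.1, hq.2]
      exact mul_ne_zero hq.1 (sub_ne_zero.2 (Ne.symm hne))
    obtain ⟨M1, hM1⟩ := gv_eventually p w hw w1 _ β h2
    obtain ⟨K, hK⟩ := gv_root w (gp d P Q n γ) β hβ
    refine ⟨max (max N M1) (max 0 (B + w ((gp d P Q n γ').eval β) - K)), ?_, ?_⟩
    · exact (le_max_left _ _).trans (le_max_left _ _)
    · set M := max (max N M1) (max 0 (B + w ((gp d P Q n γ').eval β) - K)) with hM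
      have e1 : M1 ≤ M := (le_max_right _ _).trans (le_max_left _ _)
      have e2 : 0 ≤ M := (le_max_left _ _).trans (le_max_right _ _)
      have e3 : B + w ((gp d P Q n γ').eval β) - K ≤ M :=
        (le_max_right _ _).trans (le_max_right _ _)
      have e4 := hM1 M e1
      have e5 := hK M e2
      show B ≤ gv w (gp d P Q n γ) β M - gv w (gp d P Q n γ') β M
      rw [e4]
      linarith
  have hcinf : ∃ M, ρ₀ ≤ M ∧ φ c M ≤ s₂ := by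
    have h1 : (gp d P Q n γ).eval c ≠ 0 := by
      rw [hev c γ hc0, hcκ]
      exact mul_ne_zero hc0 (sub_ne_zero.2 hκγ)
    have h2 : (gp d P Q n γ').eval c ≠ 0 := by
      rw [hev c γ' hc0, hcκ]
      exact mul_ne_zero hc0 (sub_ne_zero.2 hκγ')
    obtain ⟨M1, hM1⟩ := gv_eventually p w hw w1 _ c h1
    obtain ⟨M2, hM2⟩ := gv_eventually p w hw w1 _ c h2
    refine ⟨max ρ₀ (max M1 M2), le_max_left _ _, ?_⟩
    show gv w (gp d P Q n γ) c _ - gv w (gp d P Q n γ') c _ ≤ s₂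
    rw [hM1 _ ((le_max_left _ _).trans (le_max_right _ _)),
      hM2 _ ((le_max_right _ _).trans (le_max_right _ _)), hev c γ hc0, hev c γ' hc0, hcκ,
      hw.mul _ _ hc0 (sub_ne_zero.2 hκγ), hw.mul _ _ hc0 (sub_ne_zero.2 hκγ')]
    linarith
  by_cases hI : ∃ ρ, ρ₀ ≤ ρ ∧ φ β ρ ≤ s₂
  · -- Case I
    obtain ⟨u, hu1, hu2⟩ := hI
    obtain ⟨v, hv1, hv2⟩ := hβinf u s₁
    obtain ⟨ρ₂, ρ₁, h1, h2, h3, h4, h5, h6⟩ := cross_up (φ β) (φcont β) hv1 hs hu2 hv2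
    have z2 : IsZp p ρ₂ := hbO β hβO ρ₂ y hy hyγ hyγ' h4
      (fun ε hε => not_const_right h2 (fun ρ' k1 k2 => (h6 ρ' k1 k2).1.ne') ε hε)
    have z1 : IsZp p ρ₁ := hbO β hβO ρ₁ x hx hxγ hxγ' h5
      (fun ε hε => not_const_left h2 (fun ρ' k1 k2 => (h6 ρ' k1 k2).2.ne) ε hε)
    have := hline β hβO ρ₂ ρ₁ (by linarith) h2.le z2 z1
      (fun ρ k1 k2 => (hDF ρ (by linarith)).1)
      (fun ρ k1 k2 => ⟨(h6 ρ k1 k2).1.le, (h6 ρ k1 k2).2.le⟩)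
    rw [h4, h5] at this
    exact this
  · -- Case II
    push Not at hI
    have hcb : ∀ a b ρ, (b = a ∨ ρ ≤ w (a - b)) → ∀ ρ' ≤ ρ, φ a ρ' = φ b ρ' := by
      intro a b ρ h ρ' hρ'
      show gv w _ a ρ' - gv w _ a ρ' = gv w _ b ρ' - gv w _ b ρ'
      rw [(gcen _ a b ρ h ρ' hρ').1, (gcen (gp d P Q n γ') a b ρ h ρ' hρ').1]
    have hDFcb : ∀ a b ρ, (b = a ∨ ρ ≤ w (a - b)) → ∀ ρ' ≤ ρ,
        DF w d P Q n a ρ' = DF w d P Q n b ρ' := by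
      intro a b ρ h ρ' hρ'
      unfold DF
      rw [(gcen _ a b ρ h ρ' hρ').1, (gcen (qn d P Q n) a b ρ h ρ' hρ').1]
    have e0 : φ β ρ₀ = φ c ρ₀ := hcb β c ρ₀ (Or.inr le_rfl) ρ₀ le_rfl
    have e1 : s₂ < φ c ρ₀ := by rw [← e0]; exact hI ρ₀ le_rfl
    obtain ⟨M, hM1, hM2⟩ := hcinf
    obtain ⟨ρ₂, h1, h2, h3, h4⟩ := first_cross_down (φ c) (φcont c) hM1 e1 hM2
    obtain ⟨b, hbO', hbc, hbw⟩ := hb c ρ₂ y hy hyγ hyγ' h3
      (fun ε hε => not_const_left h1 (fun ρ' k1 k2 => (h4 ρ' k1.le k2).ne') ε hε)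
    have f1 : ∀ ρ' ≤ ρ₂, φ c ρ' = φ b ρ' := hcb c b ρ₂ (Or.inr hbw.ge)
    have f2 : ∀ ρ' ≤ ρ₂, DF w d P Q n c ρ' = DF w d P Q n b ρ' := hDFcb c b ρ₂ (Or.inr hbw.ge)
    have f3 : φ b ρ₂ = s₂ := by rw [← f1 ρ₂ le_rfl, h3]
    have f4 : ∀ ρ', ρ₀ ≤ ρ' → ρ' < ρ₂ → s₂ < φ b ρ' := fun ρ' k1 k2 => by
      rw [← f1 ρ' k2.le]; exact h4 ρ' k1 k2
    have z2 : IsZp p ρ₂ := hbO b hbO' ρ₂ y hy hyγ hyγ' f3
      (fun ε hε => not_const_left h1 (fun ρ' k1 k2 => (f4 ρ' k1.le k2).ne') ε hε)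
    obtain ⟨g1, g2⟩ := wtri β c b hβc (Ne.symm hbc) (by rw [hbw]; exact h1)
    have z0 : IsZp p ρ₀ := by
      rw [hρ₀, ← g2]
      exact hL.zp β hβO b hbO' g1
    by_cases hIIa : ∃ ρ, ρ₀ ≤ ρ ∧ ρ ≤ ρ₂ ∧ s₁ ≤ φ b ρ
    · obtain ⟨u, hu1, hu2, hu3⟩ := hIIa
      obtain ⟨r₁, r₂, k1, k2, k3, k4, k5, k6⟩ := cross_down (φ b) (φcont b) hu2 hs hu3 f3.le
      have y1 : IsZp p r₁ := hbO b hbO' r₁ x hx hxγ hxγ' k4
        (fun ε hε => not_const_right k2 (fun ρ' l1 l2 => (k6 ρ' l1 l2).2.ne) ε hε)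
      have y2 : IsZp p r₂ := hbO b hbO' r₂ y hy hyγ hyγ' k5
        (fun ε hε => not_const_left k2 (fun ρ' l1 l2 => (k6 ρ' l1 l2).1.ne') ε hε)
      have := hline b hbO' r₁ r₂ (by linarith) k2.le y1 y2
        (fun ρ l1 l2 => by rw [← f2 ρ (by linarith)]; exact (hDF ρ (by linarith)).2)
        (fun ρ l1 l2 => ⟨(k6 ρ l1 l2).1.le, (k6 ρ l1 l2).2.le⟩)
      rw [k4, k5] at this
      have h9 := DivZp_neg this
      rw [neg_sub] at h9
      exact h9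
    · push Not at hIIa
      have e2 : φ β ρ₀ = φ b ρ₀ := by rw [e0, f1 ρ₀ h1.le]
      have e3 : φ β ρ₀ < s₁ := by rw [e2]; exact hIIa ρ₀ le_rfl h1.le
      obtain ⟨v, hv1, hv2⟩ := hβinf ρ₀ s₁
      obtain ⟨ρ₁, k1, k2, k3, k4⟩ := first_cross (φ β) (φcont β) hv1 e3 hv2
      have z1 : IsZp p ρ₁ := hbO β hβO ρ₁ x hx hxγ hxγ' k3
        (fun ε hε => not_const_left k1 (fun ρ' l1 l2 => (k4 ρ' l1.le l2).ne) ε hε)
      have t1 := hline β hβO ρ₀ ρ₁ le_rfl k1.le z0 z1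
        (fun ρ l1 l2 => (hDF ρ (by linarith)).1)
        (fun ρ l1 l2 => ⟨(hI ρ l1.le).le, (k4 ρ l1.le l2).le⟩)
      have t2 := hline b hbO' ρ₀ ρ₂ le_rfl h1.le z0 z2
        (fun ρ l1 l2 => by rw [← f2 ρ l2.le]; exact (hDF ρ (by linarith)).2)
        (fun ρ l1 l2 => ⟨(f4 ρ l1.le l2).le, (hIIa ρ l1.le l2.le).le⟩)
      have t3 := DivZp_sub hp t1 t2
      have t4 : φ β ρ₁ - φ β ρ₀ - (φ b ρ₂ - φ b ρ₀) = s₁ - s₂ := by
        rw [k3, f3, e2]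
        ring
      rw [t4] at t3
      exact t3

end Pool.Agent.H187.PCF
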